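import Pool.Agent.Helper10.AB.GoalsF2

/-!
# Project AB: packet EX2 (extension from the open to the closed cylinder)
-/

open MeasureTheory Set Filter Topology
open scoped ContDiff

noncomputable section

namespace Pool.Agent.Helper38.AB

open Pool.Agent.Helper24.AB
open Pool.Agent.Helper10.AB

section gen
variable {E : Type*} [NormedAddCommGroup E] [NormedSpace ℝ E]

theorem ex2_gen (S : Set E) (hS : IsOpen S) (hc : Convex ℝ S) (ι : Type)
    (u : ι → E → ℂ) (nx : ι → Fin 4 → ι) (l : Fin 4 → E → E →L[ℝ] ℂ)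
    (hl : ∀ j, ContDiffOn ℝ ∞ (l j) (closure S))
    (hd : ∀ i, ∀ q ∈ S, HasFDerivAt (u i) (∑ j, u (nx i j) q • l j q) q)
    (hb : ∀ i, ∀ x ∈ closure S, ∃ C : ℝ, ∀ᶠ q in 𝓝[S] x, ‖u i q‖ ≤ C) :
    ∀ i, ∃ v : E → ℂ, ContDiffOn ℝ ∞ v (closure S) ∧ ∀ q ∈ S, v q = u i q := by
  -- limits
  have hlim : ∀ i, ∀ x ∈ closure S, ∃ y, Tendsto (u i) (𝓝[S] x) (𝓝 y) := by
    intro i x hx
    have hC : ∀ j, ∃ C : ℝ, ∀ᶠ q in 𝓝[S] x, ‖u (nx i j) q • l j q‖ ≤ C := by
      intro j
      obtain ⟨C, hC⟩ := hb (nx i j) x hx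
      have h1 : ∀ᶠ q in 𝓝[S] x, ‖l j q‖ ≤ ‖l j x‖ + 1 := by
        have h2 : Tendsto (fun q => ‖l j q‖) (𝓝[S] x) (𝓝 ‖l j x‖) :=
          (((hl j).continuousOn x hx).mono subset_closure).norm
        exact (h2.eventually (Iio_mem_nhds (lt_add_one _))).mono (fun q hq => le_of_lt hq)
      refine ⟨|C| * (‖l j x‖ + 1), ?_⟩
      filter_upwards [hC, h1] with q hq1 hq2
      calc ‖u (nx i j) q • l j q‖ ≤ ‖u (nx i j) q‖ * ‖l j q‖ :=
            norm_smul_le (u (nx i j) q) (l j q)
        _ ≤ |C| * (‖l j x‖ + 1) := by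
            apply mul_le_mul (hq1.trans (le_abs_self C)) hq2 (norm_nonneg _) (abs_nonneg _)
    choose C hC using hC
    have hall : ∀ᶠ q in 𝓝[S] x, ‖∑ j, u (nx i j) q • l j q‖ ≤ ∑ j, C j := by
      have h3 : ∀ᶠ q in 𝓝[S] x, ∀ j, ‖u (nx i j) q • l j q‖ ≤ C j := eventually_all.2 hC
      filter_upwards [h3] with q hq
      exact (norm_sum_le _ _).trans (Finset.sum_le_sum fun j _ => hq j)
    obtain ⟨r, hr, hball⟩ := Metric.mem_nhdsWithin_iff.1 hall
    set ST : Set E := Metric.ball x r ∩ S with hST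
    have hSTc : Convex ℝ ST := (convex_ball x r).inter hc
    have hlip : LipschitzOnWith (Real.toNNReal (∑ j, C j)) (u i) ST := by
      refine Convex.lipschitzOnWith_of_nnnorm_hasFDerivWithin_le
        (f' := fun q => ∑ j, u (nx i j) q • l j q) ?_ ?_ hSTc
      · intro q hq
        exact (hd i q hq.2).hasFDerivWithinAt
      · intro q hq
        have := hball hq
        rw [← NNReal.coe_le_coe, coe_nnnorm]
        exact le_trans this (Real.le_coe_toNNReal _)
    have hnb : 𝓝[S] x = 𝓝[ST] x := by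
      rw [hST, inter_comm]
      exact (nhdsWithin_inter_of_mem' (mem_nhdsWithin_of_mem_nhds (Metric.ball_mem_nhds x hr))).symm
    have : NeBot (𝓝[S] x) := mem_closure_iff_nhdsWithin_neBot.1 hx
    have hcau : Cauchy (map (u i) (𝓝[S] x)) := by
      rw [hnb]
      have : NeBot (𝓝[ST] x) := by rw [← hnb]; infer_instance
      refine Cauchy.map_of_le (cauchy_nhds.mono nhdsWithin_le_nhds) hlip.uniformContinuousOn ?_
      exact le_principal_iff.2 self_mem_nhdsWithin
    exact CompleteSpace.complete hcau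
  -- extension
  set v : ι → E → ℂ := fun i => extendFrom S (u i) with hv
  have hvS : ∀ i, ∀ q ∈ S, v i q = u i q := by
    intro i q hq
    exact extendFrom_eq (subset_closure hq)
      ((hd i q hq).continuousAt.mono_left nhdsWithin_le_nhds)
  have hvc : ∀ i, ContinuousOn (v i) (closure S) := fun i =>
    continuousOn_extendFrom (Subset.refl _) (fun x hx => hlim i x hx)
  have hvd : ∀ i, ∀ x ∈ closure S,
      HasFDerivWithinAt (v i) (∑ j, v (nx i j) x • l j x) (closure S) x := by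
    intro i x hx
    have hdS : ∀ q ∈ S, HasFDerivAt (v i) (∑ j, u (nx i j) q • l j q) q := by
      intro q hq
      refine (hd i q hq).congr_of_eventuallyEq ?_
      filter_upwards [hS.mem_nhds hq] with y hy using hvS i y hy
    refine hasFDerivWithinAt_closure_of_tendsto_fderiv
      (fun q hq => (hdS q hq).differentiableAt.differentiableWithinAt) hc hS
      (fun y hy => (hvc i y hy).mono subset_closure) ?_
    have h4 : ContinuousOn (fun q => ∑ j, v (nx i j) q • l j q) (closure S) :=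
      continuousOn_finsetSum _ (fun j _ => (hvc (nx i j)).smul (hl j).continuousOn)
    have h5 : Tendsto (fun q => ∑ j, v (nx i j) q • l j q) (𝓝[S] x)
        (𝓝 (∑ j, v (nx i j) x • l j x)) := (h4 x hx).mono subset_closure
    refine h5.congr' ?_
    filter_upwards [self_mem_nhdsWithin] with q hq
    rw [(hdS q hq).fderiv]
    exact Finset.sum_congr rfl (fun j _ => by rw [hvS _ q hq])
  have hind : ∀ n : ℕ, ∀ i, ContDiffOn ℝ n (v i) (closure S) := by
    intro n
    induction n with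
    | zero =>
      intro i
      exact contDiffOn_zero.2 (hvc i)
    | succ n ih =>
      intro i
      have h6 : ((n + 1 : ℕ) : WithTop ℕ∞) = (n : WithTop ℕ∞) + 1 := by push_cast; rfl
      rw [h6, contDiffOn_succ_iff_hasFDerivWithinAt (by exact_mod_cast (WithTop.natCast_ne_top n))]
      intro x hx
      refine ⟨closure S, ?_, ?_, fun q => ∑ j, v (nx i j) q • l j q, fun q hq => hvd i q hq, ?_⟩
      · rw [insert_eq_of_mem hx]; exact self_mem_nhdsWithin
      · intro h; exact absurd h (by simp)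
      · exact ContDiffOn.sum (fun j _ => (ih (nx i j)).smul
          ((hl j).of_le (by exact_mod_cast le_top)))
  intro i
  exact ⟨v i, contDiffOn_infty.2 (fun n => hind n i), hvS i⟩

end gen

def S0c (a : ℝ) : Set ((Fin 4 → ℝ) × (Fin 4 → ℝ)) := {q | (∑ j, q.1 j ^ 2) < a ^ 2}

theorem S0c_open (a : ℝ) : IsOpen (S0c a) := by
  apply isOpen_lt _ continuous_const
  fun_prop

theorem S0c_convex (a : ℝ) : Convex ℝ (S0c a) := by
  intro x hx y hy s t hs ht hst
  simp only [S0c, mem_ofPred_eq] at hx hy ⊢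
  have h1 : ∀ j : Fin 4, (s • x + t • y).1 j ^ 2 ≤ s * x.1 j ^ 2 + t * y.1 j ^ 2 := by
    intro j
    have : (s • x + t • y).1 j = s * x.1 j + t * y.1 j := by simp
    rw [this]
    have ht' : t = 1 - s := by linarith
    subst ht'
    nlinarith [mul_nonneg (mul_nonneg hs ht) (sq_nonneg (x.1 j - y.1 j))]
  calc ∑ j, (s • x + t • y).1 j ^ 2 ≤ ∑ j, (s * x.1 j ^ 2 + t * y.1 j ^ 2) :=
        Finset.sum_le_sum fun j _ => h1 j
    _ = s * ∑ j, x.1 j ^ 2 + t * ∑ j, y.1 j ^ 2 := by
        rw [Finset.sum_add_distrib, Finset.mul_sum, Finset.mul_sum]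
    _ < a ^ 2 := by
        rcases hs.eq_or_lt with h | h
        · subst h
          have : t = 1 := by linarith
          subst this
          linarith
        · nlinarith [mul_lt_mul_of_pos_left hx h, mul_le_mul_of_nonneg_left hy.le ht]

theorem S0c_closure (a : ℝ) (ha : 0 < a) : closure (S0c a) = Cyl a := by
  apply Subset.antisymm
  · apply closure_minimal
    · intro q hq
      have hq' : (∑ j, q.1 j ^ 2) < a ^ 2 := hq
      exact hq'.le
    · apply isClosed_le _ continuous_const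
      fun_prop
  · intro q hq
    have hq' : (∑ j, q.1 j ^ 2) ≤ a ^ 2 := hq
    have ht : Tendsto (fun r : ℝ => (r • q.1, q.2)) (𝓝[<] 1) (𝓝 q) := by
      have h1 : Continuous (fun r : ℝ => (r • q.1, q.2)) := by fun_prop
      have h2 := h1.tendsto 1
      simp only [one_smul] at h2
      exact h2.mono_left nhdsWithin_le_nhds
    refine mem_closure_of_tendsto ht ?_
    have h3 : Ioo (0 : ℝ) 1 ∈ 𝓝[<] (1 : ℝ) := Ioo_mem_nhdsLT (by norm_num)
    filter_upwards [h3] with r hr
    simp only [S0c, mem_ofPred_eq, Pi.smul_apply, smul_eq_mul, mul_pow, ← Finset.mul_sum]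
    have h4 : r ^ 2 < 1 := by nlinarith [hr.1, hr.2]
    have h5 : 0 ≤ ∑ j, q.1 j ^ 2 := Finset.sum_nonneg fun j _ => sq_nonneg _
    nlinarith [mul_le_mul_of_nonneg_left hq' (sq_nonneg r), mul_pos ha ha]

theorem ex2 : S_EX2 := by
  intro a ι u nx l ha hl hd hb
  have h := ex2_gen (S0c a) (S0c_open a) (S0c_convex a) ι u nx l
    (by rw [S0c_closure a ha]; exact hl) (fun i q hq => hd i q hq) ?_
  · intro i
    obtain ⟨v, hv1, hv2⟩ := h i
    rw [S0c_closure a ha] at hv1
    exact ⟨v, hv1, fun q hq => hv2 q hq⟩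
  · intro i x _
    obtain ⟨C, hC⟩ := hb i (‖x.2‖ + 1)
    refine ⟨C, ?_⟩
    have h1 : ∀ᶠ q : (Fin 4 → ℝ) × (Fin 4 → ℝ) in 𝓝[S0c a] x, ‖q.2‖ < ‖x.2‖ + 1 := by
      apply mem_nhdsWithin_of_mem_nhds
      have h2 : Continuous (fun q : (Fin 4 → ℝ) × (Fin 4 → ℝ) => ‖q.2‖) := by fun_prop
      exact h2.continuousAt.eventually (Iio_mem_nhds (lt_add_one _))
    filter_upwards [h1, self_mem_nhdsWithin] with q hq1 hq2
    exact hC q hq2 hq1.le

end Pool.Agent.Helper38.AB
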