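import Pool.Agent.Helper10.AB.GoalsF1

/-!
# Packet INTD of project AB: smooth dependence of integrals on a real parameter
-/

open MeasureTheory Set Filter Topology
open scoped ContDiff

namespace Pool.Agent.Helper38.AB

open Pool.Agent.Helper10.AB

section
variable {Y : Type} [MeasurableSpace Y] {μ : Measure Y} {φ : ℝ → Y → ℂ}

omit [MeasurableSpace Y] in
theorem hasDeriv (hc : ∀ y, ContDiff ℝ ∞ (fun t => φ t y)) (k : ℕ) (t : ℝ) (y : Y) :
    HasDerivAt (fun t => iteratedDeriv k (fun t => φ t y) t)
      (iteratedDeriv (k + 1) (fun t => φ t y) t) t := by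
  rw [iteratedDeriv_succ]
  have h := (hc y).differentiable_iteratedDeriv k (by exact_mod_cast ENat.natCast_lt_top k)
  exact (h t).hasDerivAt

theorem meas (hc : ∀ y, ContDiff ℝ ∞ (fun t => φ t y))
    (hm : ∀ t, AEStronglyMeasurable (φ t) μ) (k : ℕ) :
    ∀ t, AEStronglyMeasurable (fun y => iteratedDeriv k (fun t => φ t y) t) μ := by
  induction k with
  | zero =>
    intro t
    simpa only [iteratedDeriv_zero] using hm t
  | succ k ih =>
    intro t
    have hlim : Tendsto (fun n : ℕ => (1 : ℝ) / ((n : ℝ) + 1)) atTop (𝓝[≠] 0) := by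
      refine tendsto_nhdsWithin_iff.2 ⟨tendsto_one_div_add_atTop_nhds_zero_nat,
        Eventually.of_forall fun n => ?_⟩
      have : (0 : ℝ) < 1 / ((n : ℝ) + 1) := by positivity
      exact this.ne'
    refine aestronglyMeasurable_of_tendsto_ae (u := atTop)
      (f := fun (n : ℕ) y => ((1 : ℝ) / ((n : ℝ) + 1))⁻¹ •
        (iteratedDeriv k (fun t => φ t y) (t + 1 / ((n : ℝ) + 1)) -
          iteratedDeriv k (fun t => φ t y) t)) (fun n => ?_) (Eventually.of_forall fun y => ?_)
    · exact AEStronglyMeasurable.const_smul ((ih (t + 1 / ((n : ℝ) + 1))).sub (ih t))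
        (((1 : ℝ) / ((n : ℝ) + 1))⁻¹)
    · exact (hasDeriv hc k t y).tendsto_slope_zero.comp hlim

end

theorem intd : S_INTD := by
  intro Y _ μ φ hμ hc hm hb
  have key : ∀ (k : ℕ) (t : ℝ),
      HasDerivAt (fun t => ∫ y, iteratedDeriv k (fun t => φ t y) t ∂μ)
        (∫ y, iteratedDeriv (k + 1) (fun t => φ t y) t ∂μ) t := by
    intro k t
    obtain ⟨M, hM⟩ := hb (k + 1) t
    obtain ⟨M0, hM0⟩ := hb k t
    refine (hasDerivAt_integral_of_dominated_loc_of_deriv_le (μ := μ)
      (F := fun t y => iteratedDeriv k (fun t => φ t y) t)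
      (F' := fun t y => iteratedDeriv (k + 1) (fun t => φ t y) t) (x₀ := t)
      (s := Metric.closedBall t 1) (bound := fun _ => M) (Metric.closedBall_mem_nhds t one_pos)
      (Eventually.of_forall fun s => meas hc hm k s) ?_ (meas hc hm (k + 1) t)
      (Eventually.of_forall fun y s hs => ?_) (integrable_const M)
      (Eventually.of_forall fun y s _ => hasDeriv hc k s y)).2
    · refine Integrable.of_bound (meas hc hm k t) M0 (Eventually.of_forall fun y => ?_)
      exact hM0 t (by simp) y
    · refine hM s ?_ y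
      rwa [Metric.mem_closedBall, Real.dist_eq] at hs
  have hit : ∀ k : ℕ, iteratedDeriv k (fun t => ∫ y, φ t y ∂μ) =
      fun t => ∫ y, iteratedDeriv k (fun t => φ t y) t ∂μ := by
    intro k
    induction k with
    | zero =>
      funext t
      simp only [iteratedDeriv_zero]
    | succ k ih =>
      rw [iteratedDeriv_succ, ih]
      funext t
      exact (key k t).deriv
  refine ⟨?_, fun k t => by rw [hit k]⟩
  refine contDiff_of_differentiable_iteratedDeriv fun k _ => ?_
  rw [hit k]
  exact fun t => (key k t).differentiableAt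

end Pool.Agent.Helper38.AB
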